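import Mathlib

/-!
# Minimal fields: definition and first properties
-/

namespace Pool.Agent.Lib.MP_097535_lc

open FirstOrder MvPolynomial

/-- An infinite field is minimal if every subset which is definable, with parameters, by a first
order formula of the language of rings is finite or cofinite. -/
def IsMinimalField (K : Type*) [Field K] : Prop :=
  letI : FirstOrder.Ring.CompatibleRing K := FirstOrder.Ring.compatibleRingOfRing K
  Infinite K ∧ ∀ A : Set K, Set.Definable₁ (Set.univ : Set K) Language.ring A →
    A.Finite ∨ Aᶜ.Finite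

variable {K : Type*} [Field K]

/-- Sets of the form `{t | ∃ x, p(t, x) = 0}` are finite or cofinite. -/
theorem IsMinimalField.exists_poly (hK : IsMinimalField K) {m : ℕ}
    (p : MvPolynomial (Fin 1 ⊕ Fin m) K) :
    {t : K | ∃ x : Fin m → K, eval (Sum.elim (fun _ => t) x) p = 0}.Finite ∨
      {t : K | ∃ x : Fin m → K, eval (Sum.elim (fun _ => t) x) p = 0}ᶜ.Finite := by
  let _ : FirstOrder.Ring.CompatibleRing K := FirstOrder.Ring.compatibleRingOfRing K
  apply hK.2
  have h1 := FirstOrder.Ring.mvPolynomial_zeroLocus_definable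
    (K := K) ({p} : Finset (MvPolynomial (Fin 1 ⊕ Fin m) K))
  have h2 := (h1.mono (Set.subset_univ _)).exists_of_finite
  unfold Set.Definable₁
  convert h2 using 1
  ext v
  simp only [Set.mem_ofPred_eq, Finset.coe_singleton, MvPolynomial.zeroLocus_span,
    Set.mem_singleton_iff, forall_eq]
  have hv : (fun _ : Fin 1 => v 0) = v := by
    ext i
    rw [Subsingleton.elim i 0]
  rw [hv]
  simp [MvPolynomial.aeval_eq_eval]

/-- The set of `t` for which the pencil member `f - t g` has a root is finite or cofinite. -/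
theorem IsMinimalField.ratio (hK : IsMinimalField K) (f g : Polynomial K) :
    {t : K | ∃ x : K, f.eval x = t * g.eval x}.Finite ∨
      {t : K | ∃ x : K, f.eval x = t * g.eval x}ᶜ.Finite := by
  have h := hK.exists_poly (m := 1)
    (Polynomial.aeval (X (Sum.inr 0)) f - X (Sum.inl 0) * Polynomial.aeval (X (Sum.inr 0)) g)
  have hset : {t : K | ∃ x : Fin 1 → K, eval (Sum.elim (fun _ => t) x)
      (Polynomial.aeval (X (Sum.inr 0)) f - X (Sum.inl 0) * Polynomial.aeval (X (Sum.inr 0)) g
        : MvPolynomial (Fin 1 ⊕ Fin 1) K) = 0} = {t : K | ∃ x : K, f.eval x = t * g.eval x} := by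
    have key : ∀ (t : K) (x : Fin 1 → K) (p : Polynomial K), eval (Sum.elim (fun _ => t) x)
        (Polynomial.aeval (X (Sum.inr 0)) p : MvPolynomial (Fin 1 ⊕ Fin 1) K) = p.eval (x 0) := by
      intro t x p
      rw [← MvPolynomial.aeval_eq_eval, ← Polynomial.aeval_algHom_apply]
      simp [Polynomial.aeval_def, Polynomial.eval₂_eq_eval_map]
    ext t
    simp only [Set.mem_ofPred_eq, map_sub, map_mul, eval_X, Sum.elim_inl, key, sub_eq_zero]
    constructor
    · rintro ⟨x, hx⟩
      exact ⟨x 0, hx⟩
    · rintro ⟨x, hx⟩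
      exact ⟨fun _ => x, hx⟩
  rwa [hset] at h

/-- If `f / g` is not constant then `f - t g` has a root for all but finitely many `t`. -/
theorem IsMinimalField.ratio_cofinite (hK : IsMinimalField K) (f g : Polynomial K)
    (hg : g ≠ 0) (hfg : ∀ t : K, f ≠ Polynomial.C t * g) :
    {t : K | ∃ x : K, f.eval x = t * g.eval x}ᶜ.Finite := by
  refine (hK.ratio f g).resolve_left fun hfin => ?_
  have hinf : Infinite K := hK.1
  apply Set.infinite_univ (α := K)
  have hsub : (Set.univ : Set K) ⊆ (g.rootSet K) ∪
      ⋃ t ∈ {t : K | ∃ x : K, f.eval x = t * g.eval x}, ((f - Polynomial.C t * g).rootSet K) := by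
    intro x _
    by_cases hx : g.eval x = 0
    · left
      rw [Polynomial.mem_rootSet]
      exact ⟨hg, by simpa using hx⟩
    · right
      rw [Set.mem_iUnion₂]
      refine ⟨f.eval x / g.eval x, ⟨x, by field_simp⟩, ?_⟩
      rw [Polynomial.mem_rootSet]
      refine ⟨sub_ne_zero.mpr (hfg _), ?_⟩
      simp only [Polynomial.coe_aeval_eq_eval, Polynomial.eval_sub, Polynomial.eval_mul,
        Polynomial.eval_C]
      field_simp
      ring
  refine Set.Finite.subset ?_ hsub
  exact (g.rootSet_finite K).union (hfin.biUnion fun t _ => Polynomial.rootSet_finite _ K)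

/-- A nonconstant polynomial map is surjective up to a finite set. -/
theorem IsMinimalField.image_cofinite (hK : IsMinimalField K) (f : Polynomial K)
    (hf : f.natDegree ≠ 0) : {t : K | ∃ x : K, f.eval x = t}ᶜ.Finite := by
  have h := hK.ratio_cofinite f 1 one_ne_zero (fun t ht => hf (by rw [ht]; simp))
  simpa using h

/-- Power maps are surjective. -/
theorem IsMinimalField.exists_pow_eq (hK : IsMinimalField K) (n : ℕ) (hn : n ≠ 0) (y : K) :
    ∃ x : K, x ^ n = y := by
  by_cases hy : y = 0
  · exact ⟨0, by rw [hy, zero_pow hn]⟩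
  have hinf : Infinite K := hK.1
  have h := hK.image_cofinite (Polynomial.X ^ n) (by simpa using hn)
  simp only [Polynomial.eval_pow, Polynomial.eval_X] at h
  by_contra hcon
  set S : Set K := {t : K | ∃ x : K, x ^ n = t} with hS
  have h1 : (S \ {0}).Infinite := by
    intro hfin
    apply Set.infinite_univ (α := K)
    refine ((hfin.union h).union (Set.finite_singleton 0)).subset ?_
    intro x _
    by_cases hx0 : x = 0
    · right; exact hx0
    · left
      by_cases hx : x ∈ S
      · left; exact ⟨hx, hx0⟩
      · right; exact hx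
  apply h1
  have h2 : ((fun s => y * s) '' (S \ {0})) ⊆ Sᶜ := by
    rintro _ ⟨s, ⟨⟨w, rfl⟩, hs0⟩, rfl⟩ ⟨z, hz⟩
    apply hcon
    have hw : w ≠ 0 := by
      rintro rfl
      exact hs0 (zero_pow hn)
    refine ⟨z / w, ?_⟩
    simp only at hz
    rw [div_pow, hz]
    field_simp
  exact Set.Finite.of_finite_image (h.subset h2) (mul_right_injective₀ hy).injOn

end Pool.Agent.Lib.MP_097535_lc
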